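import Mathlib
import Pool.Agent.R805.Cop.Lovasz

/-!
# Two cops win on connected graphs which are covered by three cliques and have no induced `C₅`
-/

set_option autoImplicit false

namespace Pool.Agent.R805.Cop

open Finset

/-- `CopsWin G c r`: with the cops on `c`, the robber on `r` and the cops to move, the cops can
force the capture in finitely many moves. -/
inductive CopsWin {V : Type} (G : SimpleGraph V) {k : ℕ} : (Fin k → V) → V → Prop
  /-- A cop is on the robber's vertex. -/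
  | caught (c : Fin k → V) (r : V) (i : Fin k) (h : c i = r) : CopsWin G c r
  /-- The cops move to `c'`; whatever the robber answers, they can force the capture (nothing is
  required if the move to `c'` captures the robber). -/
  | move (c : Fin k → V) (r : V) (c' : Fin k → V) (hc : ∀ i, c' i = c i ∨ G.Adj (c i) (c' i))
      (h : ∀ r', (r' = r ∨ G.Adj r r') → (∀ i, c' i ≠ r) → CopsWin G c' r') : CopsWin G c r

/-- The cop number: the least number `k` of cops for which there is an initial position from which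
the cops win, wherever the robber starts. -/
noncomputable def copNumber {V : Type} (G : SimpleGraph V) : ℕ :=
  sInf {k : ℕ | ∃ c : Fin k → V, ∀ r : V, CopsWin G c r}

variable {V : Type} {G : SimpleGraph V}

lemma safe_move {a b r a' b' : V} (h : ¬ CopsWin G ![a, b] r) (ha : a' = a ∨ G.Adj a a')
    (hb : b' = b ∨ G.Adj b b') :
    ∃ r', (r' = r ∨ G.Adj r r') ∧ a' ≠ r ∧ b' ≠ r ∧ ¬ CopsWin G ![a', b'] r' := by
  by_contra hcon
  push Not at hcon
  apply h
  refine CopsWin.move _ _ ![a', b'] ?_ ?_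
  · intro i
    fin_cases i
    · exact ha
    · exact hb
  · intro r' hr' hne
    exact hcon r' hr' (hne 0) (hne 1)

lemma safe_apart {a b r : V} (h : ¬ CopsWin G ![a, b] r) :
    r ≠ a ∧ ¬ G.Adj a r ∧ r ≠ b ∧ ¬ G.Adj b r := by
  refine ⟨?_, ?_, ?_, ?_⟩
  · rintro rfl
    exact h (CopsWin.caught _ _ 0 rfl)
  · intro hadj
    obtain ⟨r', -, h1, -, -⟩ := safe_move h (Or.inr hadj) (Or.inl rfl)
    exact h1 rfl
  · rintro rfl
    exact h (CopsWin.caught _ _ 1 rfl)
  · intro hadj
    obtain ⟨r', -, -, h1, -⟩ := safe_move h (Or.inl rfl) (Or.inr hadj)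
    exact h1 rfl

/-- The adjacency relation of the pentagon. -/
def R5 (i j : Fin 5) : Prop := j = i + 1 ∨ i = j + 1

instance : DecidableRel R5 := fun i j => by unfold R5; infer_instance

lemma no_C5 [Fintype V] (h : IsPerfect G) (v : Fin 5 → V)
    (hv : ∀ i j, G.Adj (v i) (v j) ↔ R5 i j) : False := by
  classical
  have hcol : (G.induce (Set.range v)).Colorable 2 := by
    apply perfect_colorable h
    intro K hK hKc
    by_contra hcard
    push Not at hcard
    obtain ⟨L, hLK, hL⟩ := exists_subset_card_eq (show 3 ≤ K.card by omega)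
    obtain ⟨x, y, z, hxy, hxz, hyz, hLe⟩ := card_eq_three.1 hL
    have hx : x ∈ K := hLK (by rw [hLe]; simp)
    have hy : y ∈ K := hLK (by rw [hLe]; simp)
    have hz : z ∈ K := hLK (by rw [hLe]; simp)
    obtain ⟨i, rfl⟩ := hK hx
    obtain ⟨j, rfl⟩ := hK hy
    obtain ⟨k, rfl⟩ := hK hz
    have h1 := (hv i j).1 (hKc hx hy hxy)
    have h2 := (hv i k).1 (hKc hx hz hxz)
    have h3 := (hv j k).1 (hKc hy hz hyz)
    have : ∀ i j k : Fin 5, R5 i j → R5 i k → R5 j k → False := by decide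
    exact this i j k h1 h2 h3
  obtain ⟨c⟩ := hcol
  have h1 : ∀ i, c ⟨v i, i, rfl⟩ ≠ c ⟨v (i + 1), i + 1, rfl⟩ := fun i =>
    c.valid (show G.Adj (v i) (v (i + 1)) from (hv i (i + 1)).2 (Or.inl rfl))
  have h2 : ∀ f : Fin 5 → Fin 2, ∃ i, f i = f (i + 1) := by decide
  obtain ⟨i, hi⟩ := h2 (fun i => c ⟨v i, i, rfl⟩)
  exact h1 i hi

section Game

variable [Fintype V] (hperf : IsPerfect G) (hsafe : ∀ a b : V, ∃ r, ¬ CopsWin G ![a, b] r)
  (f : V → Fin 3) (hf : ∀ u v, f u = f v → u ≠ v → G.Adj u v)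

include hf in
lemma clique_ne {u r a b : V} (h : ¬ CopsWin G ![a, b] r) (hu : u = a ∨ u = b) : f r ≠ f u := by
  obtain ⟨h1, h2, h3, h4⟩ := safe_apart h
  intro heq
  rcases hu with rfl | rfl
  · exact h2 (hf _ _ heq.symm h1.symm)
  · exact h4 (hf _ _ heq.symm h3.symm)

/-- Three distinct elements of `Fin 3`. -/
lemma third {i j k l : Fin 3} (hij : i ≠ j) (hik : i ≠ k) (hjk : j ≠ k) (h1 : l ≠ i)
    (h2 : l ≠ j) : l = k := by
  simp only [ne_eq, Fin.ext_iff] at *
  omega

include hperf hsafe hf in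
lemma star {r x y : V} (hrx : f r ≠ f x) (hry : f r ≠ f y) (hxy : f x ≠ f y) (h1 : G.Adj r x)
    (h2 : G.Adj r y) : G.Adj x y := by
  by_contra hn
  obtain ⟨b, hb⟩ := hsafe r x
  have hb1 := safe_apart hb
  have hbr := clique_ne f hf hb (Or.inl rfl)
  have hbx := clique_ne f hf hb (Or.inr rfl)
  have hfb : f b = f y := third hrx hry hxy hbr hbx
  have hby : b ≠ y := by
    rintro rfl
    exact hb1.2.1 h2
  obtain ⟨b', hb', -, -, hs⟩ := safe_move hb (Or.inr h2) (Or.inr h1.symm)
  have hb2 := safe_apart hs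
  have hb'y := clique_ne f hf hs (Or.inl rfl)
  have hb'r := clique_ne f hf hs (Or.inr rfl)
  have hfb' : f b' = f x := third hry.symm hxy.symm hrx hb'y hb'r
  have hbb' : b' ≠ b := by
    rintro rfl
    exact hbx hfb'
  have hadj1 : G.Adj b b' := by
    rcases hb' with h | h
    · exact absurd h hbb'
    · exact h
  have hb'x : b' ≠ x := by
    rintro rfl
    exact hb2.2.2.2 h1
  have hadj2 : G.Adj x b' := hf _ _ hfb'.symm hb'x.symm
  have hadj3 : G.Adj b y := hf _ _ hfb hby
  -- the pentagon x, b', b, y, r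
  have n1 : ¬ G.Adj x b := hb1.2.2.2
  have n2 : ¬ G.Adj r b := hb1.2.1
  have n3 : ¬ G.Adj y b' := hb2.2.1
  have n4 : ¬ G.Adj r b' := hb2.2.2.2
  have n1' : ¬ G.Adj b x := fun h => n1 h.symm
  have n2' : ¬ G.Adj b r := fun h => n2 h.symm
  have n3' : ¬ G.Adj b' y := fun h => n3 h.symm
  have n4' : ¬ G.Adj b' r := fun h => n4 h.symm
  have n5' : ¬ G.Adj y x := fun h => hn h.symm
  refine no_C5 hperf ![x, b', b, y, r] ?_
  intro i j
  fin_cases i <;> fin_cases j <;>
    simp [R5, hadj1, hadj2, hadj3, h1, h2, hadj1.symm, hadj2.symm, hadj3.symm, h1.symm, h2.symm,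
      n1, n2, n3, n4, n1', n2', n3', n4', n5', hn]

include hperf hsafe hf in
/-- No vertex has neighbours in both other cliques. -/
lemma caseB {z y w : V} (hzy : f z ≠ f y) (hzw : f z ≠ f w) (hyw : f y ≠ f w) (h1 : G.Adj z y)
    (h2 : G.Adj z w) : False := by
  obtain ⟨x, hx⟩ := hsafe y w
  have hxa := safe_apart hx
  have hxy := clique_ne f hf hx (Or.inl rfl)
  have hxw := clique_ne f hf hx (Or.inr rfl)
  have hfx : f x = f z := third hyw hzy.symm hzw.symm hxy hxw
  -- option 1
  obtain ⟨y', hy', -, -, hs⟩ := safe_move hx (Or.inr h1.symm) (Or.inl rfl)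
  have hy'z := clique_ne f hf hs (Or.inl rfl)
  have hy'w := clique_ne f hf hs (Or.inr rfl)
  have hfy' : f y' = f y := third hzw hzy hyw.symm hy'z hy'w
  have hadj : G.Adj x y' := by
    rcases hy' with h | h
    · exact absurd (by rw [← h, hfy']) hxy
    · exact h
  -- option 2
  have hyy' : y' = y ∨ G.Adj y y' := by
    by_cases h : y' = y
    · exact Or.inl h
    · exact Or.inr (hf _ _ hfy'.symm (Ne.symm h))
  obtain ⟨v, hv, -, -, hs2⟩ := safe_move hx hyy' (Or.inr h2.symm)
  have hvy' := clique_ne f hf hs2 (Or.inl rfl)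
  have hvz := clique_ne f hf hs2 (Or.inr rfl)
  have hfv : f v = f w := third (l := f v) hzy hzw hyw hvz (by rw [← hfy']; exact hvy')
  have hadj2 : G.Adj x v := by
    rcases hv with h | h
    · exact absurd (by rw [← h, hfv]) hxw
    · exact h
  have hva := safe_apart hs2
  apply hva.2.1
  refine star hperf hsafe f hf (r := x) ?_ ?_ ?_ hadj hadj2
  · rw [hfx, hfy']; exact hzy
  · rw [hfx, hfv]; exact hzw
  · rw [hfy', hfv]; exact hyw

include hsafe hf in
/-- If there are edges between `Q_i` and both other cliques, then some vertex has neighbours in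
both other cliques. -/
lemma caseC {y z w z' : V} (hyz : f y ≠ f z) (hzw : f z ≠ f w) (hyw : f y ≠ f w)
    (hzz' : f z = f z') (h1 : G.Adj y z) (h2 : G.Adj w z') :
    ∃ x a b : V, f x ≠ f a ∧ f x ≠ f b ∧ f a ≠ f b ∧ G.Adj x a ∧ G.Adj x b := by
  obtain ⟨x, hx⟩ := hsafe y w
  have hxy := clique_ne f hf hx (Or.inl rfl)
  have hxw := clique_ne f hf hx (Or.inr rfl)
  have hfx : f x = f z := third hyw hyz hzw.symm hxy hxw
  obtain ⟨a, ha, -, -, hs⟩ := safe_move hx (Or.inr h1) (Or.inl rfl)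
  have haz := clique_ne f hf hs (Or.inl rfl)
  have haw := clique_ne f hf hs (Or.inr rfl)
  have hfa : f a = f y := third hzw hyz.symm hyw.symm haz haw
  obtain ⟨b, hb, -, -, hs2⟩ := safe_move hx (Or.inl rfl) (Or.inr h2)
  have hby := clique_ne f hf hs2 (Or.inl rfl)
  have hbz := clique_ne f hf hs2 (Or.inr rfl)
  have hfb : f b = f w := third (l := f b) hyz hyw hzw hby (by rw [hzz']; exact hbz)
  refine ⟨x, a, b, ?_, ?_, ?_, ?_, ?_⟩
  · rw [hfx, hfa]; exact hyz.symm
  · rw [hfx, hfb]; exact hzw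
  · rw [hfa, hfb]; exact hyw
  · rcases ha with h | h
    · exact absurd (by rw [← h, hfa]) hxy
    · exact h
  · rcases hb with h | h
    · exact absurd (by rw [← h, hfb]) hxw
    · exact h

include hperf hsafe hf in
theorem game_false (hconn : G.Connected) : False := by
  classical
  -- all cliques are nonempty
  have hsurj : ∀ k : Fin 3, ∃ v, f v = k := by
    intro k
    by_contra hcon
    push Not at hcon
    have hex : ∀ k : Fin 3, ∃ i j : Fin 3, i ≠ j ∧ i ≠ k ∧ j ≠ k := by decide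
    obtain ⟨i, j, hij, hik, hjk⟩ := hex k
    obtain ⟨v₀⟩ := hconn.nonempty
    set a : V := if h : ∃ v, f v = i then h.choose else v₀ with ha
    set b : V := if h : ∃ v, f v = j then h.choose else v₀ with hb
    obtain ⟨r, hr⟩ := hsafe a b
    have h1 := clique_ne f hf hr (Or.inl rfl)
    have h2 := clique_ne f hf hr (Or.inr rfl)
    by_cases hi : f r = i
    · have h3 : ∃ v, f v = i := ⟨r, hi⟩
      apply h1
      rw [ha, dif_pos h3, h3.choose_spec, hi]
    · by_cases hj : f r = j
      · have h3 : ∃ v, f v = j := ⟨r, hj⟩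
        apply h2
        rw [hb, dif_pos h3, h3.choose_spec, hj]
      · exact hcon r (third hij hik hjk hi hj)
  -- every clique has an edge leaving it
  have hedge : ∀ k : Fin 3, ∃ u v, f u = k ∧ f v ≠ k ∧ G.Adj u v := by
    intro k
    obtain ⟨u, hu⟩ := hsurj k
    obtain ⟨v, hv⟩ := hsurj (k + 1)
    have hne' : ∀ k : Fin 3, k + 1 ≠ k := by decide
    have hne := hne' k
    obtain ⟨p⟩ := hconn.preconnected u v
    obtain ⟨d, -, hd1, hd2⟩ := p.exists_boundary_dart {x | f x = k} hu
      (by intro h; rw [Set.mem_ofPred_eq, hv] at h; exact hne h)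
    exact ⟨d.fst, d.snd, hd1, hd2, d.adj⟩
  -- some clique has edges to both other cliques
  obtain ⟨y, z, w, z', hyz, hzw, hyw, hzz', h1, h2⟩ : ∃ y z w z' : V, f y ≠ f z ∧ f z ≠ f w ∧
      f y ≠ f w ∧ f z = f z' ∧ G.Adj y z ∧ G.Adj w z' := by
    obtain ⟨a, b, ha, hb, hab⟩ := hedge 0
    obtain ⟨i, hi⟩ : ∃ i, f b = i := ⟨_, rfl⟩
    have hex : ∀ i : Fin 3, ∃ j : Fin 3, j ≠ 0 ∧ j ≠ i := by decide
    obtain ⟨j, hj0, hji⟩ := hex i
    obtain ⟨c, d, hc, hd, hcd⟩ := hedge j
    have hi0 : i ≠ 0 := by rw [← hi]; exact hb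
    by_cases hd0 : f d = 0
    · exact ⟨b, a, c, d, by rw [ha]; exact hb, by rw [ha, hc]; exact hj0.symm,
        by rw [hi, hc]; exact hji.symm, by rw [ha, hd0], hab.symm, hcd⟩
    · have hdi : f d = i := third (l := f d) (i := j) (j := 0) (k := i) hj0 hji hi0.symm hd hd0
      exact ⟨a, b, c, d, by rw [ha, hi]; exact hi0.symm, by rw [hi, hc]; exact hji.symm,
        by rw [ha, hc]; exact hj0.symm, by rw [hi, hdi], hab, hcd⟩
  obtain ⟨x, a, b, hxa, hxb, hab, h3, h4⟩ := caseC hsafe f hf hyz hzw hyw hzz' h1 h2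
  exact caseB hperf hsafe f hf hxa hxb hab h3 h4

end Game

theorem two_cops [Fintype V] (hconn : G.Connected) (hperf : IsPerfect G)
    (hα : G.indepNum = 3) : ∃ c : Fin 2 → V, ∀ r : V, CopsWin G c r := by
  classical
  obtain ⟨c, hc⟩ := clique_cover hperf 3 univ (fun A _ hA => by
    rw [← hα]
    exact hA.card_le_indepNum)
  set f : V → Fin 3 := fun v => (c v).castPred (hc v (mem_univ v)).1 with hf
  have hf' : ∀ u v, f u = f v → u ≠ v → G.Adj u v := by
    intro u v huv hne
    refine (hc u (mem_univ u)).2 v (mem_univ v) ?_ hne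
    simpa [hf, Fin.castPred_inj] using huv
  by_contra hcon
  have hsafe : ∀ a b : V, ∃ r, ¬ CopsWin G ![a, b] r := by
    intro a b
    by_contra h
    push Not at h
    exact hcon ⟨![a, b], h⟩
  exact game_false hperf hsafe f hf' hconn

end Pool.Agent.R805.Cop
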